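import Pool.Agent.Helper59.MB.Goals1

/-! Project MB (MP_49a1ce_an), packet INQ: a numerical inequality. -/

set_option autoImplicit false

namespace Pool.Agent.Helper8.MB

open Pool.Agent.Helper59.MB

theorem four_le (k : ℕ) : (k + 1) ^ 4 ≤ 6 * 4 ^ k := by
  rcases lt_or_ge k 2 with h | h
  · interval_cases k <;> norm_num
  · induction k, h using Nat.le_induction with
    | base => norm_num
    | succ k hk ih =>
      have h1 : (k + 1 + 1) ^ 2 ≤ 2 * (k + 1) ^ 2 := by nlinarith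
      have h2 : (k + 1 + 1) ^ 4 ≤ 4 * (k + 1) ^ 4 := by
        calc (k + 1 + 1) ^ 4 = ((k + 1 + 1) ^ 2) ^ 2 := by ring
          _ ≤ (2 * (k + 1) ^ 2) ^ 2 := Nat.pow_le_pow_left h1 2
          _ = 4 * (k + 1) ^ 4 := by ring
      calc (k + 1 + 1) ^ 4 ≤ 4 * (k + 1) ^ 4 := h2
        _ ≤ 4 * (6 * 4 ^ k) := by omega
        _ = 6 * 4 ^ (k + 1) := by ring

theorem P_eq (k : ℕ) : P s0 k = 2 ^ ((k + 10) ^ 2) := rfl

theorem k_le (k : ℕ) : k + 1 ≤ 2 ^ k := Nat.lt_two_pow_self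

theorem aux1 (k m : ℕ) (A C : ℝ) (hA1 : 1 ≤ A) (hC1 : 1 ≤ C)
    (hm : (2 : ℝ) ^ (2 * k + 7) * A ^ 3 * C = 2 ^ m) :
    2 ^ (k + 2) * (A * (2 * ((k + 1) * (A + 1) ^ 2 * (2 * C + 2)))) ≤ (2 : ℝ) ^ m := by
  have hk : ((k : ℝ) + 1) ≤ 2 ^ k := by exact_mod_cast k_le k
  have e1 : (A + 1) ^ 2 ≤ (2 * A) ^ 2 := by nlinarith
  have e2 : 2 * C + 2 ≤ 4 * C := by linarith
  have hk0 : (0 : ℝ) ≤ (k : ℝ) + 1 := by positivity
  have hA0 : 0 ≤ A := by linarith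
  have hC0 : 0 ≤ C := by linarith
  calc 2 ^ (k + 2) * (A * (2 * ((k + 1) * (A + 1) ^ 2 * (2 * C + 2))))
      ≤ 2 ^ (k + 2) * (A * (2 * (2 ^ k * (2 * A) ^ 2 * (4 * C)))) := by gcongr
    _ = 2 ^ (2 * k + 7) * A ^ 3 * C := by ring
    _ = 2 ^ m := hm

theorem aux0 (m : ℕ) : (2 : ℝ) ^ m ≤ Real.exp (m : ℝ) := by
  have e4 : (2 : ℝ) ≤ Real.exp 1 := by
    have := Real.add_one_le_exp (1 : ℝ)
    linarith
  calc (2 : ℝ) ^ m ≤ Real.exp 1 ^ m := pow_le_pow_left₀ (by norm_num) e4 _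
    _ = Real.exp (m : ℝ) := by rw [← Real.exp_nat_mul, mul_one]

theorem aux5 (k : ℕ) : (0 : ℝ) < 8 * ((k : ℝ) + 1) ^ 2 := by positivity

theorem aux2 (k m : ℕ) (hm : m * (8 * (k + 1) ^ 2) ≤ 2 ^ (2 * k + 21)) :
    (2 : ℝ) ^ m ≤ Real.exp ((2 : ℝ) ^ (2 * k + 21) / (8 * ((k : ℝ) + 1) ^ 2)) := by
  have h1 : (m : ℝ) * (8 * ((k : ℝ) + 1) ^ 2) ≤ (2 : ℝ) ^ (2 * k + 21) := by
    have h2 : ((m * (8 * (k + 1) ^ 2) : ℕ) : ℝ) ≤ ((2 ^ (2 * k + 21) : ℕ) : ℝ) :=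
      Nat.cast_le.mpr hm
    rw [Nat.cast_mul, Nat.cast_mul, Nat.cast_pow, Nat.cast_pow, Nat.cast_add, Nat.cast_one,
      Nat.cast_ofNat, Nat.cast_ofNat] at h2
    exact h2
  exact (aux0 m).trans (Real.exp_le_exp.mpr ((le_div_iff₀ (aux5 k)).mpr h1))

theorem aux3 (k : ℕ) : (4 * k ^ 2 + 92 * k + 514) * (8 * (k + 1) ^ 2) ≤ 2 ^ (2 * k + 21) := by
  have e6 : 4 * k ^ 2 + 92 * k + 514 ≤ 676 * (k + 1) ^ 2 := by nlinarith
  calc (4 * k ^ 2 + 92 * k + 514) * (8 * (k + 1) ^ 2)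
      ≤ (676 * (k + 1) ^ 2) * (8 * (k + 1) ^ 2) := Nat.mul_le_mul_right _ e6
    _ = 5408 * (k + 1) ^ 4 := by ring
    _ ≤ 5408 * (6 * 4 ^ k) := Nat.mul_le_mul_left _ (four_le k)
    _ = 32448 * 4 ^ k := by ring
    _ ≤ 2097152 * 4 ^ k := Nat.mul_le_mul_right _ (by norm_num)
    _ = 2 ^ (2 * k + 21) := by
        rw [pow_add, pow_mul]
        norm_num
        ring

theorem aux4 (k : ℕ) (A C x : ℝ) (hA1 : 1 ≤ A)
    (h : 2 ^ (k + 2) * (A * (2 * ((k + 1) * (A + 1) ^ 2 * (2 * C + 2)))) ≤ Real.exp x) :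
    2 * ((k + 1) * (A + 1) ^ 2 * (2 * C + 2) * Real.exp (-x)) ≤ (1 / 2) ^ (k + 2) / A := by
  have hE : 0 < Real.exp x := Real.exp_pos _
  have hA0 : 0 < A := by linarith
  rw [le_div_iff₀ hA0, one_div, inv_pow, ← one_div, le_div_iff₀ (by positivity), Real.exp_neg]
  calc 2 * ((k + 1) * (A + 1) ^ 2 * (2 * C + 2) * (Real.exp x)⁻¹) * A * 2 ^ (k + 2)
      = 2 ^ (k + 2) * (A * (2 * ((k + 1) * (A + 1) ^ 2 * (2 * C + 2)))) *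
        (Real.exp x)⁻¹ := by ring
    _ ≤ Real.exp x * (Real.exp x)⁻¹ := mul_le_mul_of_nonneg_right h (inv_nonneg.mpr hE.le)
    _ = 1 := mul_inv_cancel₀ hE.ne'

theorem main (k : ℕ) (A C B : ℝ) (hA : A = 2 ^ ((k + 11) ^ 2)) (hC : C = 2 ^ ((k + 12) ^ 2))
    (hB : B = 2 ^ ((k + 10) ^ 2)) :
    2 * ((k + 1) * (A + 1) ^ 2 * (2 * C + 2) * Real.exp (-(A / B) / (8 * (k + 1) ^ 2))) ≤
      (1 / 2) ^ (k + 2) / A := by
  have hA1 : 1 ≤ A := by rw [hA]; exact one_le_pow₀ (by norm_num)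
  have hC1 : 1 ≤ C := by rw [hC]; exact one_le_pow₀ (by norm_num)
  have hdiv : A / B = 2 ^ (2 * k + 21) := by
    rw [hA, hB, div_eq_iff (by positivity), ← pow_add]
    congr 1
    ring
  have hm : (2 : ℝ) ^ (2 * k + 7) * A ^ 3 * C = 2 ^ (4 * k ^ 2 + 92 * k + 514) := by
    rw [hA, hC, ← pow_mul, ← pow_add, ← pow_add]
    congr 1
    ring
  rw [hdiv, neg_div]
  exact aux4 k A C _ hA1 ((aux1 k _ A C hA1 hC1 hm).trans (aux2 k _ (aux3 k)))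

theorem t_INQ : S_INQ := by
  intro k
  constructor
  · exact main k _ _ _ (by rw [P_eq]; push_cast; ring) (by rw [P_eq]; push_cast; ring)
      (by rw [P_eq]; push_cast; ring)
  · have h1 : P s0 k = 2 ^ ((k + 10) ^ 2) := P_eq k
    have h2 : P s0 (k + 1) = 2 ^ ((k + 1 + 10) ^ 2) := P_eq (k + 1)
    rw [h1, h2]
    calc 2 * (k + 1) * 2 ^ ((k + 10) ^ 2) ≤ 2 * 2 ^ k * 2 ^ ((k + 10) ^ 2) :=
          Nat.mul_le_mul_right _ (Nat.mul_le_mul_left _ (k_le k))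
      _ = 2 ^ (1 + k + (k + 10) ^ 2) := by rw [pow_add, pow_add, pow_one]
      _ ≤ 2 ^ ((k + 1 + 10) ^ 2) := Nat.pow_le_pow_right (by norm_num) (by nlinarith)

end Pool.Agent.Helper8.MB
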