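import Pool.Agent.Helper59.MB.Goals3

/-! Project MB (MP_49a1ce_an), packet ENT: a completely deterministic sequence has few block
words. -/

set_option autoImplicit false

open Finset

namespace Pool.Agent.Helper8.MB

open Pool.Agent.Helper59.MB

theorem err_sq {a : ℤ} {x : ℝ} (h : a ≠ round x) : 1 ≤ 4 * ((a : ℝ) - x) ^ 2 := by
  have h1 : 1 / 2 ≤ |(a : ℝ) - x| := by
    by_contra hc
    push Not at hc
    apply h
    have h2 := abs_lt.mp hc
    symm
    rw [round_eq, Int.floor_eq_iff]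
    constructor <;> linarith [h2.1, h2.2]
  have h2 : (1 / 2 : ℝ) ^ 2 ≤ |(a : ℝ) - x| ^ 2 := pow_le_pow_left₀ (by norm_num) h1 2
  rw [sq_abs] at h2
  linarith

theorem block_inj {L q q' i i' : ℕ} (hi : i < L) (hi' : i' < L) (h : L * q + i = L * q' + i') :
    q = q' ∧ i = i' := by
  have hL : 0 < L := by omega
  have h1 : (L * q + i) / L = q := by
    rw [Nat.mul_add_div hL, Nat.div_eq_of_lt hi, add_zero]
  have h2 : (L * q' + i') / L = q' := by
    rw [Nat.mul_add_div hL, Nat.div_eq_of_lt hi', add_zero]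
  have h3 : q = q' := by rw [← h1, ← h2, h]
  subst h3
  exact ⟨rfl, by omega⟩

theorem t_ENT (hENA : S_ENA) : S_ENT := by
  classical
  intro u hu hNP ε hε
  obtain ⟨θ0, hθ0, hE⟩ := hENA ε hε
  set θ : ℝ := min θ0 (ε / 2) with hθd
  have hθ : 0 < θ := lt_min hθ0 (by linarith)
  have hθ1 : θ ≤ θ0 := min_le_left _ _
  have hθ2 : θ ≤ ε / 2 := min_le_right _ _
  have hδ : 0 < θ ^ 2 / 4 := by positivity
  have hnp := hNP (θ ^ 2 / 4) hδ
  unfold NP at hnp
  push Not at hnp
  obtain ⟨r, N₀, hr⟩ := hnp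
  obtain ⟨L₀, hL₀⟩ := hE (r + 1)
  refine ⟨max L₀ 1, fun L hL => ?_⟩
  have hL1 : 1 ≤ L := le_trans (le_max_right _ _) hL
  obtain ⟨U, hU1, hU2⟩ := hL₀ L (le_trans (le_max_left _ _) hL)
  refine ⟨U, hU1, max N₀ L, fun N hN => ?_⟩
  have hNN₀ : N₀ ≤ N := le_trans (le_max_left _ _) hN
  have hNL : L ≤ N := le_trans (le_max_right _ _) hN
  set Q : ℕ := N / L + 1 with hQ
  set N' : ℕ := L * Q with hN'
  have hNN' : N < N' := by
    rw [hN', hQ]
    exact Nat.lt_mul_div_succ N hL1
  have hN'le : N' ≤ N + L := by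
    rw [hN', hQ, mul_add, mul_one]
    exact Nat.add_le_add_right (Nat.mul_div_le N L) L
  obtain ⟨e, he⟩ := hr N' (by omega)
  let e2 : (Fin (r + 1) → ℤ) → ℤ := fun p => round (e fun i => p (Fin.castSucc i))
  have hpast : ∀ n : ℕ, (fun i : Fin r => past u n (i : ℕ)) =
      fun i : Fin r => (fun j : Fin (r + 1) => past u n (j : ℕ)) (Fin.castSucc i) := by
    intro n
    funext i
    rfl
  set E : Finset ℕ := (Icc 1 N').filter fun n =>
    u n ≠ e2 fun j : Fin (r + 1) => past u n (j : ℕ) with hEd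
  have hEcard : (E.card : ℝ) ≤ θ ^ 2 * N' := by
    calc (E.card : ℝ) = ∑ n ∈ E, (1 : ℝ) := by simp
      _ ≤ ∑ n ∈ E, 4 * ((u n : ℝ) - e fun i => past u n i) ^ 2 := by
          refine Finset.sum_le_sum fun n hn => ?_
          have h1 : u n ≠ round (e fun i : Fin r => past u n (i : ℕ)) :=
            (Finset.mem_filter.mp hn).2
          exact err_sq h1
      _ ≤ ∑ n ∈ Icc 1 N', 4 * ((u n : ℝ) - e fun i => past u n i) ^ 2 :=
          Finset.sum_le_sum_of_subset_of_nonneg (Finset.filter_subset _ _)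
            fun n _ _ => by positivity
      _ = 4 * ∑ n ∈ Icc 1 N', ((u n : ℝ) - e fun i => past u n i) ^ 2 := by
          rw [Finset.mul_sum]
      _ ≤ 4 * (θ ^ 2 / 4 * N') := by
          have := he
          linarith
      _ = θ ^ 2 * N' := by ring
  set Bd : Finset ℕ := (range Q).filter fun q => wd u L q ∉ U with hBd
  let F : ℕ → Finset ℕ := fun q => (range L).filter fun i => r + 1 ≤ i ∧
    u (L * q + i) ≠ e2 fun j : Fin (r + 1) => u (L * q + (i - 1 - j))
  have hF : ∀ q ∈ Bd, θ * L ≤ ((F q).card : ℝ) := by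
    intro q hq
    by_contra hc
    push Not at hc
    apply (Finset.mem_filter.mp hq).2
    have h1 := hU2 e2 (fun i => u (L * q + i)) (fun i => hu _) (by
      refine le_trans hc.le ?_
      gcongr)
    exact h1
  have hsig : (Bd.sigma F).card ≤ E.card := by
    apply Finset.card_le_card_of_injOn (fun x : (_ : ℕ) × ℕ => L * x.1 + x.2)
    · rintro ⟨q, i⟩ hx
      have hx' := Finset.mem_sigma.mp hx
      have hq : q < Q := Finset.mem_range.mp (Finset.mem_filter.mp hx'.1).1
      have hi := Finset.mem_filter.mp hx'.2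
      have hiL : i < L := Finset.mem_range.mp hi.1
      have hri : r + 1 ≤ i := hi.2.1
      have hle : L * q + i < N' := by
        calc L * q + i < L * q + L := by omega
          _ = L * (q + 1) := by ring
          _ ≤ L * Q := Nat.mul_le_mul_left _ hq
          _ = N' := rfl
      refine Finset.mem_coe.mpr (Finset.mem_filter.mpr ⟨Finset.mem_Icc.mpr ⟨?_, hle.le⟩, ?_⟩)
      · change 1 ≤ L * q + i
        omega
      · intro h
        apply hi.2.2
        have key : (fun j : Fin (r + 1) => past u (L * q + i) (j : ℕ)) =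
            fun j : Fin (r + 1) => u (L * q + (i - 1 - (j : ℕ))) := by
          funext j
          have hj : (j : ℕ) < r + 1 := j.2
          unfold past
          rw [if_pos (by omega)]
          congr 1
          omega
        have h' : u (L * q + i) = e2 (fun j : Fin (r + 1) => past u (L * q + i) (j : ℕ)) := h
        rw [key] at h'
        exact h'
    · rintro ⟨q, i⟩ hx ⟨q', i'⟩ hx' h
      have hx1 := Finset.mem_sigma.mp (Finset.mem_coe.mp hx)
      have hx2 := Finset.mem_sigma.mp (Finset.mem_coe.mp hx')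
      have h1 := block_inj (Finset.mem_range.mp (Finset.mem_filter.mp hx1.2).1)
        (Finset.mem_range.mp (Finset.mem_filter.mp hx2.2).1) h
      obtain ⟨rfl, rfl⟩ := h1
      rfl
  have hBL : (Bd.card : ℝ) * L ≤ θ * N' := by
    have h1 : (Bd.card : ℝ) * (θ * L) ≤ θ ^ 2 * N' := by
      calc (Bd.card : ℝ) * (θ * L) = ∑ q ∈ Bd, θ * L := by
            rw [Finset.sum_const, nsmul_eq_mul]
        _ ≤ ∑ q ∈ Bd, ((F q).card : ℝ) := Finset.sum_le_sum hF
        _ = ((Bd.sigma F).card : ℝ) := by rw [Finset.card_sigma]; push_cast; rfl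
        _ ≤ (E.card : ℝ) := by exact_mod_cast hsig
        _ ≤ θ ^ 2 * N' := hEcard
    have h2 : θ * ((Bd.card : ℝ) * L) ≤ θ * (θ * N') := by
      calc θ * ((Bd.card : ℝ) * L) = (Bd.card : ℝ) * (θ * L) := by ring
        _ ≤ θ ^ 2 * N' := h1
        _ = θ * (θ * N') := by ring
    exact le_of_mul_le_mul_left h2 hθ
  have hsub : {n : ℕ | n < N ∧ wd u L (n / L) ∉ U} ⊆
      (((Bd ×ˢ range L).image fun x => L * x.1 + x.2 : Finset ℕ) : Set ℕ) := by
    rintro n ⟨hn, hn2⟩
    refine Finset.mem_coe.mpr (Finset.mem_image.mpr ⟨(n / L, n % L), ?_, ?_⟩)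
    · refine Finset.mem_product.mpr ⟨Finset.mem_filter.mpr ⟨Finset.mem_range.mpr ?_, hn2⟩,
        Finset.mem_range.mpr (Nat.mod_lt _ hL1)⟩
      rw [hQ]
      exact Nat.lt_succ_of_le (Nat.div_le_div_right hn.le)
    · exact Nat.div_add_mod n L
  have hcard : ({n : ℕ | n < N ∧ wd u L (n / L) ∉ U} : Set ℕ).ncard ≤ Bd.card * L := by
    calc ({n : ℕ | n < N ∧ wd u L (n / L) ∉ U} : Set ℕ).ncard
        ≤ (((Bd ×ˢ range L).image fun x => L * x.1 + x.2 : Finset ℕ) : Set ℕ).ncard :=
          Set.ncard_le_ncard hsub (Finset.finite_toSet _)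
      _ = ((Bd ×ˢ range L).image fun x => L * x.1 + x.2).card := Set.ncard_coe_finset _
      _ ≤ (Bd ×ˢ range L).card := Finset.card_image_le
      _ = Bd.card * L := by rw [Finset.card_product, Finset.card_range]
  have hN'r : (N' : ℝ) ≤ N + L := by exact_mod_cast hN'le
  have hNLr : (L : ℝ) ≤ N := by exact_mod_cast hNL
  have hcr : ((({n : ℕ | n < N ∧ wd u L (n / L) ∉ U} : Set ℕ).ncard : ℕ) : ℝ)
      ≤ (Bd.card : ℝ) * L := by exact_mod_cast hcard
  calc ((({n : ℕ | n < N ∧ wd u L (n / L) ∉ U} : Set ℕ).ncard : ℕ) : ℝ)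
      ≤ (Bd.card : ℝ) * L := hcr
    _ ≤ θ * N' := hBL
    _ ≤ θ * (N + L) := by gcongr
    _ ≤ θ * (N + N) := by gcongr
    _ = 2 * θ * N := by ring
    _ ≤ ε * N := by
        have : (0 : ℝ) ≤ N := Nat.cast_nonneg N
        nlinarith

end Pool.Agent.Helper8.MB
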