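import Pool.Agent.Helper70.MB.Goals

/-!
# Project MB: the heat kernel
-/

open MeasureTheory Set Metric
open scoped ENNReal FourierTransform Topology
open Pool.Agent.Results.MP_91ee6f_gt Pool.Agent.Helper70.MB

namespace Pool.Agent.Helper8.MB

/-- the Gaussian with a modulation -/
noncomputable def gz {n : ℕ} (b : ℝ) (y ξ : En n) : ℂ :=
  Complex.exp (-(b : ℂ) * ‖ξ‖ ^ 2 + 2 * Real.pi * Complex.I * inner ℝ y ξ)

theorem integrable_gz {n : ℕ} {b : ℝ} (hb : 0 < b) (y : En n) : Integrable (gz b y) :=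
  GaussianFourier.integrable_cexp_neg_mul_sq_norm_add (b := (b : ℂ)) (by simpa using hb)
    (2 * Real.pi * Complex.I) y

theorem fourier_gz {n : ℕ} {b : ℝ} (hb : 0 < b) (y x : En n) :
    𝓕 (gz b y) x = (Real.pi / b : ℂ) ^ (n / 2 : ℂ) *
      Complex.exp (-Real.pi ^ 2 * ‖y - x‖ ^ 2 / b) := by
  have h := fourier_gaussian_innerProductSpace' (V := En n) (b := (b : ℂ)) (by simpa using hb) y x
  rw [finrank_euclideanSpace, Fintype.card_fin] at h
  exact h

theorem gz_zero {n : ℕ} (b : ℝ) (ξ : En n) : gz b (0 : En n) ξ = ((Real.exp (-(b * ‖ξ‖ ^ 2)) : ℝ) : ℂ) := by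
  unfold gz
  rw [inner_zero_left]
  push_cast
  ring_nf

theorem gz_mod {n : ℕ} (b : ℝ) (y ξ : En n) :
    gz b y ξ = Complex.exp (2 * Real.pi * Complex.I * inner ℝ y ξ) * gz b (0 : En n) ξ := by
  unfold gz
  rw [inner_zero_left, ← Complex.exp_add]
  push_cast
  ring_nf

/-- first step: the conjugate factor -/
theorem stepA {n : ℕ} {h : En n → ℝ} (hh : Integrable h) {g : En n → ℂ} (hg : Integrable g) :
    ∫ ξ : En n, (starRingEnd ℂ) (hat h ξ) * g ξ =
      ∫ y : En n, (h y : ℂ) * ∫ ξ : En n, Complex.exp (2 * Real.pi * Complex.I * inner ℝ y ξ) * g ξ := by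
  have h1 := VectorFourier.integral_sesq_fourierIntegral_eq_neg_flip (V := En n) (W := En n)
    (μ := volume) (ν := volume) (L := innerₗ (En n)) (e := Real.fourierChar)
    (f := fun x : En n => (h x : ℂ)) (g := g) (innerSL ℂ) Real.continuous_fourierChar
    (by simpa using continuous_inner) (integrable_ofReal hh) hg
  have h2 : ∀ ξ : En n, (starRingEnd ℂ) (hat h ξ) * g ξ = innerSL ℂ (VectorFourier.fourierIntegral
      Real.fourierChar volume (innerₗ (En n)) (fun x : En n => (h x : ℂ)) ξ) (g ξ) := by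
    intro ξ
    rw [innerSL_apply_apply, RCLike.inner_apply, mul_comm]
    rfl
  simp only [h2]
  rw [h1]
  refine integral_congr_ae (Filter.Eventually.of_forall fun y => ?_)
  simp only [innerSL_apply_apply, RCLike.inner_apply, Complex.conj_ofReal]
  rw [mul_comm]
  congr 1
  unfold VectorFourier.fourierIntegral
  refine integral_congr_ae (Filter.Eventually.of_forall fun ξ => ?_)
  simp only [LinearMap.neg_apply, LinearMap.flip_apply, neg_neg, innerₗ_apply_apply,
    Circle.smul_def, smul_eq_mul, Real.fourierChar_apply]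
  congr 2
  push_cast
  ring

/-- second step: the other factor -/
theorem stepB {n : ℕ} {v : En n → ℝ} (hv : Integrable v) {g : En n → ℂ} (hg : Integrable g) :
    ∫ ξ : En n, g ξ * hat v ξ = ∫ x : En n, (v x : ℂ) * 𝓕 g x := by
  have h1 := VectorFourier.integral_fourierIntegral_smul_eq_flip (V := En n) (W := En n)
    (μ := volume) (ν := volume) (L := innerₗ (En n)) (e := Real.fourierChar)
    (f := fun x : En n => (v x : ℂ)) (g := g) Real.continuous_fourierChar
    (by simpa using continuous_inner) (integrable_ofReal hv) hg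
  rw [flip_innerₗ] at h1
  have h2 : ∀ ξ : En n, g ξ * hat v ξ = (VectorFourier.fourierIntegral
      Real.fourierChar volume (innerₗ (En n)) (fun x : En n => (v x : ℂ)) ξ) • (g ξ) := by
    intro ξ
    rw [smul_eq_mul, mul_comm]
    rfl
  simp only [h2]
  rw [h1]
  rfl

/-- the complex identity -/
theorem heatC {n : ℕ} {b : ℝ} (hb : 0 < b) {h v : En n → ℝ} (hh : Integrable h)
    (hv : Integrable v) :
    ∫ ξ : En n, (starRingEnd ℂ) (hat h ξ) * (gz b (0 : En n) ξ * hat v ξ) =
      ∫ y : En n, (h y : ℂ) * ∫ x : En n, (v x : ℂ) * ((Real.pi / b : ℂ) ^ (n / 2 : ℂ) *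
        Complex.exp (-Real.pi ^ 2 * ‖y - x‖ ^ 2 / b)) := by
  have hg : Integrable (fun ξ : En n => gz b (0 : En n) ξ * hat v ξ) := by
    refine (integrable_gz hb 0).mul_bdd (c := ∫ x, |v x|) ?_ ?_
    · exact (continuous_hat hv).aestronglyMeasurable
    · exact Filter.Eventually.of_forall fun ξ => norm_hat_le v ξ
  rw [stepA hh hg]
  refine integral_congr_ae (Filter.Eventually.of_forall fun y => ?_)
  simp only []
  congr 1
  have h3 : ∀ ξ : En n, Complex.exp (2 * Real.pi * Complex.I * inner ℝ y ξ) *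
      (gz b (0 : En n) ξ * hat v ξ) = gz b y ξ * hat v ξ := by
    intro ξ
    rw [← mul_assoc, ← gz_mod]
  simp only [h3]
  rw [stepB hv (integrable_gz hb y)]
  simp only [fourier_gz hb]

/-- Goal HEAT. -/
theorem heat : HEAT := by
  intro n _ h v hh hv t ht
  obtain ⟨b, hbdef⟩ : ∃ b : ℝ, b = 4 * Real.pi ^ 2 * t := ⟨_, rfl⟩
  have hb : 0 < b := by rw [hbdef]; positivity
  have hc := heatC hb hh hv
  have hg : Integrable (fun ξ : En n => (starRingEnd ℂ) (hat h ξ) * (gz b (0 : En n) ξ * hat v ξ)) := by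
    refine ((integrable_gz hb 0).mul_bdd (c := ∫ x, |v x|) ?_ ?_).bdd_mul (c := ∫ x, |h x|) ?_ ?_
    · exact (continuous_hat hv).aestronglyMeasurable
    · exact Filter.Eventually.of_forall fun ξ => norm_hat_le v ξ
    · exact (Complex.continuous_conj.comp (continuous_hat hh)).aestronglyMeasurable
    · refine Filter.Eventually.of_forall fun ξ => ?_
      rw [RCLike.norm_conj]
      exact norm_hat_le h ξ
  have hl : ∀ ξ : En n, Real.exp (-(t * br ξ)) * ((starRingEnd ℂ) (hat h ξ) * hat v ξ).re =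
      Real.exp (-t) * ((starRingEnd ℂ) (hat h ξ) * (gz b (0 : En n) ξ * hat v ξ)).re := by
    intro ξ
    rw [gz_zero]
    have e1 : (starRingEnd ℂ) (hat h ξ) * (((Real.exp (-(b * ‖ξ‖ ^ 2)) : ℝ) : ℂ) * hat v ξ) =
      ((Real.exp (-(b * ‖ξ‖ ^ 2)) : ℝ) : ℂ) * ((starRingEnd ℂ) (hat h ξ) * hat v ξ) := by ring
    rw [e1, Complex.re_ofReal_mul, ← mul_assoc, ← Real.exp_add]
    congr 2
    unfold br
    rw [hbdef]
    ring
  simp only [hl]
  rw [integral_const_mul]
  have hre : ∫ ξ : En n, ((starRingEnd ℂ) (hat h ξ) * (gz b (0 : En n) ξ * hat v ξ)).re =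
      (∫ ξ : En n, (starRingEnd ℂ) (hat h ξ) * (gz b (0 : En n) ξ * hat v ξ)).re :=
    integral_re hg
  rw [hre, hc, mul_assoc]
  congr 1
  have hK : ∀ x y : En n, ((Real.pi / b : ℂ) ^ (n / 2 : ℂ) *
        Complex.exp (-Real.pi ^ 2 * ‖y - x‖ ^ 2 / b)) =
      (((4 * Real.pi * t) ^ (-((n : ℝ) / 2)) * Real.exp (-(‖x - y‖ ^ 2 / (4 * t))) : ℝ) : ℂ) := by
    intro x y
    rw [Complex.ofReal_mul]
    congr 1
    · have e2 : (Real.pi / b : ℝ) = (4 * Real.pi * t)⁻¹ := by
        rw [hbdef]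
        field_simp
      rw [Real.rpow_neg (by positivity), ← Real.inv_rpow (by positivity), ← e2,
        Complex.ofReal_cpow (by positivity)]
      push_cast
      rfl
    · rw [Complex.ofReal_exp]
      congr 1
      rw [norm_sub_rev, hbdef]
      push_cast
      field_simp
      try ring
  simp only [hK]
  have hI : ∀ y : En n, (h y : ℂ) * ∫ x : En n, (v x : ℂ) *
      (((4 * Real.pi * t) ^ (-((n : ℝ) / 2)) * Real.exp (-(‖x - y‖ ^ 2 / (4 * t))) : ℝ) : ℂ) =
      (((4 * Real.pi * t) ^ (-((n : ℝ) / 2)) *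
        ∫ x : En n, Real.exp (-(‖x - y‖ ^ 2 / (4 * t))) * (h y * v x) : ℝ) : ℂ) := by
    intro y
    have e3 : ∀ x : En n, (v x : ℂ) * (((4 * Real.pi * t) ^ (-((n : ℝ) / 2)) *
        Real.exp (-(‖x - y‖ ^ 2 / (4 * t))) : ℝ) : ℂ) =
        ((v x * ((4 * Real.pi * t) ^ (-((n : ℝ) / 2)) *
          Real.exp (-(‖x - y‖ ^ 2 / (4 * t)))) : ℝ) : ℂ) := by
      intro x
      push_cast
      ring
    simp only [e3]
    rw [integral_complex_ofReal, ← Complex.ofReal_mul]
    congr 1
    rw [← integral_const_mul, ← integral_const_mul]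
    refine integral_congr_ae (Filter.Eventually.of_forall fun x => ?_)
    simp only []
    ring
  simp only [hI]
  rw [integral_complex_ofReal, Complex.ofReal_re, integral_const_mul]

end Pool.Agent.Helper8.MB
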