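import Pool.Agent.Helper70.MB.Goals

/-!
# Project MB: integrability of the off-diagonal bound
-/

open MeasureTheory Set Metric
open scoped ENNReal Topology
open Pool.Agent.Results.MP_91ee6f_gt Pool.Agent.Helper70.MB

namespace Pool.Agent.Helper8.MB

theorem integrable_exp_quarter (n : ℕ) : Integrable (fun z : En n => Real.exp (-(‖z‖ / 4))) := by
  have h := (integrable_one_add_norm (E := En n) (μ := volume) (r := ((n + 1 : ℕ) : ℝ)) (by
    rw [finrank_euclideanSpace, Fintype.card_fin]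
    push_cast
    linarith)).const_mul (Real.exp (1 / 4) * ((n + 1).factorial * 4 ^ (n + 1)))
  refine h.mono' ?_ (Filter.Eventually.of_forall fun z => ?_)
  · exact (by fun_prop : Continuous fun z : En n => Real.exp (-(‖z‖ / 4))).aestronglyMeasurable
  · rw [Real.norm_eq_abs, abs_of_pos (Real.exp_pos _)]
    have h0 : 0 < 1 + ‖z‖ := by positivity
    have h1 := Real.pow_div_factorial_le_exp ((1 + ‖z‖) / 4) (by positivity) (n + 1)
    rw [Real.rpow_neg h0.le, Real.rpow_natCast]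
    have h2 : Real.exp (-(‖z‖ / 4)) = Real.exp (1 / 4) * (Real.exp ((1 + ‖z‖) / 4))⁻¹ := by
      rw [← Real.exp_neg, ← Real.exp_add]
      congr 1
      ring
    rw [h2, mul_assoc]
    refine mul_le_mul_of_nonneg_left ?_ (Real.exp_pos _).le
    rw [inv_le_comm₀ (Real.exp_pos _) (by positivity)]
    refine le_trans (le_of_eq ?_) h1
    rw [div_pow]
    field_simp

theorem kap_le {n : ℕ} {R : ℝ} (hR : 0 < R) {z : En n} (hz : R ≤ ‖z‖) :
    kap z ≤ (R ^ (2 * n + 1))⁻¹ * Real.exp (-(R / 4)) * Real.exp (-(‖z‖ / 4)) := by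
  unfold kap
  rw [div_eq_inv_mul, mul_assoc, ← Real.exp_add]
  refine mul_le_mul ?_ ?_ (Real.exp_pos _).le (by positivity)
  · exact inv_anti₀ (by positivity) (pow_le_pow_left₀ hR.le hz _)
  · apply Real.exp_le_exp.2
    linarith

theorem measurableSet_ge {n : ℕ} (R : ℝ) : MeasurableSet {z : En n | R ≤ ‖z‖} :=
  measurableSet_le measurable_const measurable_norm

theorem kap_int {n : ℕ} {R : ℝ} (hR : 0 < R) : IntegrableOn (kap : En n → ℝ) {z | R ≤ ‖z‖} := by
  have h := ((integrable_exp_quarter n).const_mul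
    ((R ^ (2 * n + 1))⁻¹ * Real.exp (-(R / 4)))).integrableOn (s := {z : En n | R ≤ ‖z‖})
  refine Integrable.mono' h ?_ ?_
  · have hm : Measurable (kap : En n → ℝ) := by
      unfold kap
      fun_prop
    exact hm.aestronglyMeasurable
  · refine (ae_restrict_iff' (measurableSet_ge R)).2 (Filter.Eventually.of_forall fun z hz => ?_)
    rw [Real.norm_eq_abs, abs_of_nonneg (kap_nonneg z)]
    exact kap_le hR hz

/-- Goal KAPI. -/
theorem kapi : KAPI := by
  intro n _
  refine ⟨fun R hR => kap_int hR, ?_⟩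
  refine ⟨(((1 / 2 : ℝ) ^ (2 * n + 1))⁻¹) * ((∫ z : En n, Real.exp (-(‖z‖ / 4))) + 1), ?_, ?_⟩
  · have : 0 ≤ ∫ z : En n, Real.exp (-(‖z‖ / 4)) := integral_nonneg fun z => (Real.exp_pos _).le
    positivity
  intro R hR
  have hR0 : 0 < R := by linarith
  have hI0 : 0 ≤ ∫ z : En n, Real.exp (-(‖z‖ / 4)) := integral_nonneg fun z => (Real.exp_pos _).le
  calc ∫ z in {z : En n | R ≤ ‖z‖}, kap z
      ≤ ∫ z in {z : En n | R ≤ ‖z‖}, (R ^ (2 * n + 1))⁻¹ * Real.exp (-(R / 4)) *
          Real.exp (-(‖z‖ / 4)) := by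
        refine setIntegral_mono_on (kap_int hR0) ?_ (measurableSet_ge R) fun z hz => kap_le hR0 hz
        exact ((integrable_exp_quarter n).const_mul _).integrableOn
    _ ≤ ∫ z : En n, (R ^ (2 * n + 1))⁻¹ * Real.exp (-(R / 4)) * Real.exp (-(‖z‖ / 4)) := by
        refine setIntegral_le_integral ((integrable_exp_quarter n).const_mul _) ?_
        exact Filter.Eventually.of_forall fun z => by simp only [Pi.zero_apply]; positivity
    _ = (R ^ (2 * n + 1))⁻¹ * Real.exp (-(R / 4)) * ∫ z : En n, Real.exp (-(‖z‖ / 4)) := by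
        rw [integral_const_mul]
    _ ≤ _ := by
        have h1 : (R ^ (2 * n + 1))⁻¹ ≤ ((1 / 2 : ℝ) ^ (2 * n + 1))⁻¹ :=
          inv_anti₀ (by positivity) (pow_le_pow_left₀ (by norm_num) hR _)
        have h2 : (R ^ (2 * n + 1))⁻¹ * Real.exp (-(R / 4)) ≤
            ((1 / 2 : ℝ) ^ (2 * n + 1))⁻¹ * Real.exp (-(R / 4)) :=
          mul_le_mul_of_nonneg_right h1 (Real.exp_pos _).le
        have h3 := mul_le_mul h2 (le_refl (∫ z : En n, Real.exp (-(‖z‖ / 4)))) hI0 (by positivity)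
        refine h3.trans ?_
        have h4 : 0 ≤ ((1 / 2 : ℝ) ^ (2 * n + 1))⁻¹ * Real.exp (-(R / 4)) := by positivity
        nlinarith [h4]

end Pool.Agent.Helper8.MB
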